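import Pool.Agent.V11197.SkewLegendre

set_option autoImplicit false

/-!
For every prime `p ≡ 1 (mod 4)`, the square root `s` of the skew-symmetric determinant
`D = det[(j² - k²)³ ((j² - k²)/p)]` has Legendre symbol
`(s/p) = (-1)^{N_p} (p / (4 + (-1)^{(p-1)/4}))`.
-/

open Finset

namespace Pool.Agent.Results.MP_dd0b6b_nt.CubicLegendreSqrt

/-- The determinant of the matrix `[(j² - k²)³ ((j² - k²)/p)]`, `1 ≤ j, k ≤ (p-1)/2`
(rows and columns are indexed here by `j - 1` and `k - 1`). -/
def D (p : ℕ) [Fact p.Prime] : ℤ :=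
  (Matrix.of fun j k : Fin ((p - 1) / 2) =>
    (((j : ℤ) + 1) ^ 2 - ((k : ℤ) + 1) ^ 2) ^ 3 *
      legendreSym p (((j : ℤ) + 1) ^ 2 - ((k : ℤ) + 1) ^ 2)).det

/-- The number of integers `0 < k < p/4` with `(k/p) = -1`. -/
def N (p : ℕ) [Fact p.Prime] : ℕ :=
  ((range p).filter fun k : ℕ => 0 < k ∧ 4 * k < p ∧ legendreSym p k = -1).card

/-- The modulus `4 + (-1)^{(p-1)/4}`, which is `5` or `3`. -/
def modulus (p : ℕ) : ℕ := (4 + (-1 : ℤ) ^ ((p - 1) / 4)).natAbs

open Pool.Agent.V11197.SkewLegendre in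
theorem D_eq (p : ℕ) [Fact p.Prime] : D p = skewDet p 3 ((p - 1) / 2) := by
  rw [D, skewDet]

theorem modulus_eq (p h : ℕ) (hp : p = 4 * h + 1) :
    modulus p = if h % 2 = 0 then 5 else 3 := by
  rw [modulus, show (p - 1) / 4 = h by omega]
  rcases Nat.even_or_odd' h with ⟨t, rfl | rfl⟩
  · rw [if_pos (by omega), pow_mul]
    norm_num
  · rw [if_neg (by omega), pow_succ, pow_mul]
    norm_num

open Pool.Agent.V11197.SkewLegendre in
/-- the small case `p = 5` -/
theorem five [Fact (Nat.Prime 5)] (s : ℤ) (hs : s ^ 2 = D 5) :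
    legendreSym 5 s = (-1) ^ N 5 * jacobiSym 5 (modulus 5) := by
  have h1 : D 5 = 27 ^ 2 := by
    rw [D]
    have : (5 - 1) / 2 = 2 := rfl
    change (Matrix.of fun j k : Fin 2 => (((j : ℤ) + 1) ^ 2 - ((k : ℤ) + 1) ^ 2) ^ 3 *
      legendreSym 5 (((j : ℤ) + 1) ^ 2 - ((k : ℤ) + 1) ^ 2)).det = 27 ^ 2
    rw [Matrix.det_fin_two]
    simp only [Matrix.of_apply]
    have e1 : legendreSym 5 3 = -1 := by norm_num
    have e2 : legendreSym 5 (-3) = -1 := by norm_num
    norm_num [e1, e2]
  have h2 : N 5 = 0 := by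
    rw [N, card_eq_zero, filter_eq_empty_iff]
    intro k hk h3
    have h4 : k = 1 := by omega
    subst h4
    have h5 := h3.2.2
    rw [Nat.cast_one, legendreSym.at_one] at h5
    omega
  have h3 : modulus 5 = 3 := by
    rw [modulus_eq 5 1 rfl]
    rfl
  rw [h2, h3, pow_zero, one_mul]
  rw [h1] at hs
  rcases sq_eq_sq_iff_eq_or_eq_neg.1 hs with rfl | rfl
  · norm_num
  · norm_num

open Pool.Agent.V11197.SkewLegendre in
/-- **Main result.** For every prime `p ≡ 1 (mod 4)` the determinant `D_p` is the square of an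
integer, and every integer `s` with `s² = D_p` satisfies
`(s/p) = (-1)^{N_p} (p / (4 + (-1)^{(p-1)/4}))`. -/
theorem result (p : ℕ) [Fact p.Prime] (hp : p % 4 = 1) :
    (∃ s : ℤ, s ^ 2 = D p) ∧
      ∀ s : ℤ, s ^ 2 = D p → legendreSym p s = (-1) ^ N p * jacobiSym p (modulus p) := by
  refine ⟨?_, fun s hs => ?_⟩
  · rw [D_eq]
    exact exists_sqrt p 1 _ hp
  · have hprime : p.Prime := Fact.out
    have hp1 : 1 < p := hprime.one_lt
    by_cases h5 : p = 5
    · subst h5
      exact five s hs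
    have h9 : p ≠ 9 := by
      rintro rfl
      norm_num at hprime
    obtain ⟨k, hk⟩ : ∃ k, p = 4 * (k + 1 + 1) + 1 := ⟨(p - 1) / 4 - 2, by omega⟩
    have hk1 : 0 < k := by omega
    have h1 : (p - 1) / 2 = 2 * (k + 1 + 1) := by omega
    rw [D_eq, h1] at hs
    have h2 := main p 1 k hk s hs
    have hc2 := chi_mul_self p 2 (cast_ne_zero_of_lt p 2 (by norm_num) (by omega))
    have hc3 := chi_mul_self p 3 (cast_ne_zero_of_lt p 3 (by norm_num) (by omega))
    have hc5 := chi_mul_self p 5 (cast_ne_zero_of_lt p 5 (by norm_num) (by omega))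
    have hc7 := chi_mul_self p 7 (cast_ne_zero_of_lt p 7 (by norm_num) (by omega))
    have hchi1 : chi p 1 = 1 := by simp [chi]
    have hN : chi p (2 * k + 4 * 1 + 3).factorial = chi p 5 * chi p 3 := by
      rw [show 2 * k + 4 * 1 + 3 = 2 * (k + 1 + 1) + 1 + 1 + 1 by ring, Nat.factorial_succ,
        Nat.factorial_succ, Nat.factorial_succ, chi_mul, chi_mul, chi_mul,
        chi_two_mul_factorial p _ hk (by omega),
        chi_half p (k + 1 + 1) (2 * (k + 1 + 1) + 1) 1 hk (by omega) (by omega),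
        chi_half p (k + 1 + 1) (2 * (k + 1 + 1) + 1 + 1) 3 hk (by omega) (by omega),
        chi_half p (k + 1 + 1) (2 * (k + 1 + 1) + 1 + 1 + 1) 5 hk (by omega) (by omega), hchi1]
      calc _ = chi p 5 * chi p 3 * (chi p 2 * chi p 2) * (chi p 2 * chi p 2) := by ring
        _ = _ := by rw [hc2]; ring
    have hb : chi p (∏ r ∈ range (1 + 1), bb (2 * (k + 1 + 1)) (2 * 1 + 1) r) =
        chi p 2 * (chi p 3 * chi p 5) := by
      have e1 : 6 * (2 * (k + 1 + 1) + 3).choose 3 = (2 * (k + 1 + 1) + 3) *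
          (2 * (k + 1 + 1) + 2) * (2 * (k + 1 + 1) + 1) := by
        have h7 := Nat.descFactorial_eq_factorial_mul_choose (2 * (k + 1 + 1) + 3) 3
        have h8 : (2 * (k + 1 + 1) + 3).descFactorial 3 = (2 * (k + 1 + 1) + 1) *
            ((2 * (k + 1 + 1) + 2) * (2 * (k + 1 + 1) + 3)) := by
          simp [Nat.descFactorial_succ]
        rw [show 6 = Nat.factorial 3 from rfl, ← h7, h8]
        ring
      have e2 : 2 * (2 * (k + 1 + 1) + 3).choose 2 = (2 * (k + 1 + 1) + 3) *
          (2 * (k + 1 + 1) + 2) := by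
        have h7 := Nat.descFactorial_eq_factorial_mul_choose (2 * (k + 1 + 1) + 3) 2
        have h8 : (2 * (k + 1 + 1) + 3).descFactorial 2 = (2 * (k + 1 + 1) + 2) *
            (2 * (k + 1 + 1) + 3) := by
          simp [Nat.descFactorial_succ]
        have h9 : Nat.factorial 2 = 2 := rfl
        rw [h9] at h7
        rw [← h7, h8]
        ring
      set y : ZMod p := ((2 * (k + 1 + 1) : ℕ) : ZMod p) with hy
      have hy2 : 2 * y = -1 := by
        have h5 : ((2 * (2 * (k + 1 + 1)) + 1 : ℕ) : ZMod p) = 0 := by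
          rw [show 2 * (2 * (k + 1 + 1)) + 1 = p by omega]
          exact ZMod.natCast_self p
        rw [Nat.cast_add, Nat.cast_mul, Nat.cast_ofNat, Nat.cast_one] at h5
        exact eq_neg_of_add_eq_zero_left h5
      set c3 : ZMod p := (((2 * (k + 1 + 1) + 3).choose 3 : ℕ) : ZMod p) with hc3'
      set c2 : ZMod p := (((2 * (k + 1 + 1) + 3).choose 2 : ℕ) : ZMod p) with hc2'
      have e1' : 6 * c3 = (y + 3) * (y + 2) * (y + 1) := by
        have := congrArg (Nat.cast : ℕ → ZMod p) e1
        push_cast at this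
        rw [hc3', hy]
        push_cast
        exact this
      have e2' : 2 * c2 = (y + 3) * (y + 2) := by
        have := congrArg (Nat.cast : ℕ → ZMod p) e2
        push_cast at this
        rw [hc2', hy]
        push_cast
        exact this
      have h3ne : (3 : ZMod p) ≠ 0 := by
        exact_mod_cast cast_ne_zero_of_lt p 3 (by norm_num) (by omega)
      have e3 : 16 * c3 = 5 := by
        have : (3 : ZMod p) * (16 * c3 - 5) = 0 := by
          have e : (3 : ZMod p) * (16 * c3 - 5) = 8 * (6 * c3) - 15 := by ring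
          rw [e, e1']
          have e' : (8 : ZMod p) * ((y + 3) * (y + 2) * (y + 1)) - 15 =
            (2 * y + 6) * (2 * y + 4) * (2 * y + 2) - 15 := by ring
          rw [e', hy2]
          ring
        have := (mul_eq_zero.1 this).resolve_left h3ne
        linear_combination this
      have e4 : 8 * c2 = 15 := by
        have e : 8 * c2 = 4 * (2 * c2) := by ring
        rw [e, e2']
        have e' : 4 * ((y + 3) * (y + 2)) = (2 * y + 6) * (2 * y + 4) := by ring
        rw [e', hy2]
        ring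
      have e5 : ((2 ^ 7 * ∏ r ∈ range (1 + 1), bb (2 * (k + 1 + 1)) (2 * 1 + 1) r : ℕ) : ZMod p) =
          ((3 * 5 * 7 ^ 2 : ℕ) : ZMod p) := by
        rw [prod_range_succ, prod_range_one, bb, bb, if_pos (by norm_num), if_pos (by norm_num)]
        push_cast
        have f1 : (((2 * (k + 1 + 1) + (2 * 1 + 1)).choose 0 : ℕ) : ZMod p) = 1 := by simp
        have f2 : (((2 * (k + 1 + 1) + (2 * 1 + 1)).choose (2 * 1 + 1 - 0) : ℕ) : ZMod p) = c3 :=
          rfl
        have f3 : (((2 * (k + 1 + 1) + (2 * 1 + 1)).choose 1 : ℕ) : ZMod p) = y + 3 := by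
          rw [Nat.choose_one_right, hy]
          push_cast
          ring
        have f4 : (((2 * (k + 1 + 1) + (2 * 1 + 1)).choose (2 * 1 + 1 - 1) : ℕ) : ZMod p) = c2 :=
          rfl
        rw [f1, f2, f3, f4]
        have h10 : ∀ a : ZMod p, a = 128 → a * ((1 + c3) * (y + 3 + c2)) =
            (16 + 16 * c3) * (4 * (2 * y) + 24 + 8 * c2) := by
          intro a ha
          rw [ha]
          ring
        rw [h10 _ (by norm_num), e3, e4, hy2]
        norm_num
      have e6 := chi_eq_of_cast p _ _ e5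
      rw [chi_mul, chi_mul, chi_mul, chi_pow, chi_pow] at e6
      have e7 : chi p 2 ^ 7 = chi p 2 := by
        calc chi p 2 ^ 7 = (chi p 2 * chi p 2) ^ 3 * chi p 2 := by ring
          _ = _ := by rw [hc2]; ring
      rw [e7, sq, hc7] at e6
      calc chi p (∏ r ∈ range (1 + 1), bb (2 * (k + 1 + 1)) (2 * 1 + 1) r) =
          (chi p 2 * chi p 2) *
            chi p (∏ r ∈ range (1 + 1), bb (2 * (k + 1 + 1)) (2 * 1 + 1) r) := by
              rw [hc2, one_mul]
        _ = chi p 2 * (chi p 2 *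
            chi p (∏ r ∈ range (1 + 1), bb (2 * (k + 1 + 1)) (2 * 1 + 1) r)) := by ring
        _ = _ := by rw [e6]; ring
    have hR : ∏ l ∈ range (1 + 1), chi p (2 * l + 1) = chi p 3 := by
      rw [prod_range_succ, prod_range_one, hchi1, one_mul]
    have h4 : chi p 2 ^ (k + 1 + 1) * chi p 2 = 1 := by
      have h5 := chi_two p (k + 1 + 1) hk
      nth_rw 2 [h5]
      rw [h5, ← pow_mul, ← pow_add]
      apply Even.neg_one_pow
      have : (k + 1 + 1) * (k + 1 + 1) + (k + 1 + 1) = (k + 1 + 1) * (k + 1 + 1 + 1) := by ring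
      rw [this]
      exact Nat.even_mul_succ_self _
    have h6 : legendreSym p s = chi p 5 * (chi p 5 * chi p 3) ^ k * (-1) ^ nonres p := by
      rw [h2, hN, hb, hR]
      calc _ = (chi p 2 ^ (k + 1 + 1) * chi p 2) * (chi p 3 * chi p 3) *
          (chi p 5 * (chi p 5 * chi p 3) ^ k * (-1) ^ nonres p) := by ring
        _ = _ := by rw [h4, hc3]; ring
    have hfact3 : Fact (Nat.Prime 3) := ⟨by norm_num⟩
    have hfact5 : Fact (Nat.Prime 5) := ⟨by norm_num⟩
    have hj : jacobiSym p (modulus p) = chi p 5 * (chi p 5 * chi p 3) ^ k := by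
      rw [modulus_eq p (k + 1 + 1) hk]
      have hq5 : jacobiSym p 5 = chi p 5 := by
        rw [← jacobiSym.legendreSym.to_jacobiSym,
          legendreSym.quadratic_reciprocity_one_mod_four hp (by norm_num), chi, Nat.cast_ofNat]
      have hq3 : jacobiSym p 3 = chi p 3 := by
        rw [← jacobiSym.legendreSym.to_jacobiSym,
          legendreSym.quadratic_reciprocity_one_mod_four hp (by norm_num), chi, Nat.cast_ofNat]
      rcases Nat.even_or_odd' k with ⟨t, rfl | rfl⟩
      · rw [if_pos (by omega), hq5, pow_mul]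
        have : (chi p 5 * chi p 3) ^ 2 = 1 := by
          calc (chi p 5 * chi p 3) ^ 2 = (chi p 5 * chi p 5) * (chi p 3 * chi p 3) := by ring
            _ = 1 := by rw [hc5, hc3, one_mul]
        rw [this, one_pow, mul_one]
      · rw [if_neg (by omega), hq3, pow_succ, pow_mul]
        have : (chi p 5 * chi p 3) ^ 2 = 1 := by
          calc (chi p 5 * chi p 3) ^ 2 = (chi p 5 * chi p 5) * (chi p 3 * chi p 3) := by ring
            _ = 1 := by rw [hc5, hc3, one_mul]
        rw [this, one_pow, one_mul, ← mul_assoc, hc5, one_mul]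
    rw [h6, hj, mul_comm]
    rfl

end Pool.Agent.Results.MP_dd0b6b_nt.CubicLegendreSqrt
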